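import Pool.Agent.U834.BLF.Quot

/-!
Colourings with four colours, if all minors have a vertex of degree at most four.
-/

set_option autoImplicit false

namespace Pool.Agent.U834.BLF

open Pool.Agent.H207R2.BL Pool.Agent.Y865.RF Pool.Agent.Y655.RF Pool.Agent.R814.BL

theorem extend {V : Type} (G : SimpleGraph V) (v : V)
    (g : {x : V // x ≠ v} → Fin 4) (hg : ∀ x y, G.Adj x.1 y.1 → g x ≠ g y)
    (hC : (g '' {x | G.Adj v x.1}).ncard ≤ 3) :
    ∃ g' : V → Fin 4, ∀ x y, G.Adj x y → g' x ≠ g' y := by
  classical
  obtain ⟨c, hc⟩ : ∃ c, c ∉ g '' {x | G.Adj v x.1} := by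
    by_contra hcon
    push Not at hcon
    have h1 : g '' {x | G.Adj v x.1} = Set.univ := Set.eq_univ_of_forall hcon
    rw [h1, Set.ncard_univ] at hC
    simp at hC
  have hc' : ∀ x : {x : V // x ≠ v}, G.Adj v x.1 → g x ≠ c := by
    intro x hx h
    exact hc ⟨x, hx, h⟩
  refine ⟨fun x => if hx : x = v then c else g ⟨x, hx⟩, ?_⟩
  intro x y hxy
  by_cases hx : x = v
  · have hy : y ≠ v := fun h => hxy.ne (hx.trans h.symm)
    beta_reduce
    rw [dif_pos hx, dif_neg hy]
    exact (hc' ⟨y, hy⟩ (hx ▸ hxy)).symm
  · by_cases hy : y = v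
    · beta_reduce
      rw [dif_neg hx, dif_pos hy]
      exact hc' ⟨x, hx⟩ (hy ▸ hxy.symm)
    · beta_reduce
      rw [dif_neg hx, dif_neg hy]
      exact hg _ _ hxy

theorem four_col {V : Type} [Finite V] (G : SimpleGraph V) (hD : MinorDegAbove 0 4 G)
    (hK : ¬ WK V G) : ∃ g : V → Fin 4, ∀ x y, G.Adj x y → g x ≠ g y := by
  classical
  induction hN : Nat.card V using Nat.strong_induction_on generalizing V with
  | _ N ih =>
    subst hN
    rcases isEmpty_or_nonempty V with he | hne
    · exact ⟨fun x => (he.false x).elim, fun x => (he.false x).elim⟩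
    have hpos : 0 < Nat.card V := Nat.card_pos
    obtain ⟨v, hv⟩ := minorAbove_exists 0 4 hpos G hD
    have hcard : ∀ {W : Type} [Finite W] (w : W), Nat.card {x : W // x ≠ w} < Nat.card W := by
      intro W _ w
      have : Fintype W := Fintype.ofFinite W
      rw [Nat.card_eq_fintype_card, Nat.card_eq_fintype_card]
      exact Fintype.card_subtype_lt (x := w) (by simp)
    have him : ∀ (g : {x : V // x ≠ v} → Fin 4) (S : Set V), S ⊆ G.neighborSet v →
        (∀ x : {x : V // x ≠ v}, G.Adj v x.1 → ∃ y : {x : V // x ≠ v}, y.1 ∈ S ∧ g y = g x) →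
        S.ncard ≤ 3 → (g '' {x | G.Adj v x.1}).ncard ≤ 3 := by
      intro g S hS h hS3
      have h1 : g '' {x | G.Adj v x.1} ⊆
          (fun x => if hx : x = v then (0 : Fin 4) else g ⟨x, hx⟩) '' S := by
        rintro _ ⟨x, hx, rfl⟩
        obtain ⟨y, hy, hyx⟩ := h x hx
        refine ⟨y.1, hy, ?_⟩
        simp only [dif_neg y.2]
        exact hyx
      exact (Set.ncard_le_ncard h1 (Set.toFinite _)).trans
        ((Set.ncard_image_le (Set.toFinite S)).trans hS3)
    rcases Nat.lt_or_ge (G.neighborSet v).ncard 4 with h3 | h4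
    · obtain ⟨g, hg⟩ := ih _ (hcard v) (G.comap (Subtype.val : {x : V // x ≠ v} → V))
        (minorAbove_vertex 0 4 G v hD) (fun h => hK (wk_vertex G v h)) rfl
      exact extend G v g hg (him g (G.neighborSet v) le_rfl (fun x hx => ⟨x, hx, rfl⟩) (by omega))
    · by_cases hcl : ∃ a b, G.Adj v a ∧ G.Adj v b ∧ a ≠ b ∧ ¬ G.Adj a b
      · obtain ⟨a, b, ha, hb, hab, hnab⟩ := hcl
        let a' : {x : V // x ≠ v} := ⟨a, ha.ne'⟩
        let b' : {x : V // x ≠ v} := ⟨b, hb.ne'⟩
        have hab' : a' ≠ b' := fun h => hab (congrArg Subtype.val h)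
        set G1 := contract G a v with hG1
        have h1 : G1.Adj a' b' := ⟨hab', Or.inr (Or.inl ⟨rfl, hb⟩)⟩
        have hD1 := minorAbove_contr 0 4 G a v ha.symm hD
        have hK1 : ¬ WK _ G1 := fun h => hK (wk_contr G a v ha.symm h)
        have hD2 := minorAbove_contr 0 4 G1 a' b' h1 hD1
        have hK2 : ¬ WK _ (contract G1 a' b') := fun h => hK1 (wk_contr G1 a' b' h1 h)
        obtain ⟨g2, hg2⟩ := ih _ ((hcard b').trans (hcard v)) (contract G1 a' b') hD2 hK2 rfl
        let g : {x : V // x ≠ v} → Fin 4 := fun x =>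
          if hx : x = b' then g2 ⟨a', hab'⟩ else g2 ⟨x, hx⟩
        have hgb : g b' = g2 ⟨a', hab'⟩ := by simp [g]
        have hgx : ∀ x (hx : x ≠ b'), g x = g2 ⟨x, hx⟩ := by
          intro x hx
          simp [g, hx]
        have hG1a : ∀ x y : {x : V // x ≠ v}, G.Adj x.1 y.1 → G1.Adj x y := by
          intro x y hxy
          exact ⟨fun h => hxy.ne (congrArg Subtype.val h), Or.inl hxy⟩
        have hb2 : ∀ y : {x : V // x ≠ v}, G.Adj b y.1 → g b' ≠ g y := by
          intro y hy
          have hyb : y ≠ b' := fun h => hy.ne (congrArg Subtype.val h).symm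
          have hya : a' ≠ y := by
            intro h
            apply hnab
            rw [← h] at hy
            exact hy.symm
          rw [hgb, hgx y hyb]
          apply hg2
          exact ⟨fun h => hya (congrArg Subtype.val h), Or.inr (Or.inl ⟨rfl, hG1a b' y hy⟩)⟩
        have hg : ∀ x y : {x : V // x ≠ v}, G.Adj x.1 y.1 → g x ≠ g y := by
          intro x y hxy
          by_cases hx : x = b'
          · subst hx
            exact hb2 y hxy
          · by_cases hy : y = b'
            · subst hy
              exact (hb2 x hxy.symm).symm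
            · rw [hgx x hx, hgx y hy]
              apply hg2
              exact ⟨fun h => hxy.ne (congrArg (fun z => z.1.1) h), Or.inl (hG1a x y hxy)⟩
        refine extend G v g hg (him g (G.neighborSet v \ {b}) (fun x hx => hx.1) ?_ ?_)
        · intro x hx
          by_cases hxb : x = b'
          · refine ⟨a', ⟨ha, hab⟩, ?_⟩
            rw [hxb, hgb, hgx a' hab']
          · exact ⟨x, ⟨hx, fun h => hxb (Subtype.ext h)⟩, rfl⟩
        · have := Set.ncard_diff_singleton_of_mem (s := G.neighborSet v) (a := b) hb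
          omega
      · exfalso
        push Not at hcl
        have h4' : (G.neighborSet v).ncard = 4 := by omega
        obtain ⟨a, b, c, d, hab, hac, had, hbc, hbd, hcd, hS⟩ :=
          Set.ncard_eq_four.1 h4'
        have m1 : G.Adj v a := by
          have : a ∈ G.neighborSet v := by rw [hS]; simp
          exact this
        have m2 : G.Adj v b := by
          have : b ∈ G.neighborSet v := by rw [hS]; simp
          exact this
        have m3 : G.Adj v c := by
          have : c ∈ G.neighborSet v := by rw [hS]; simp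
          exact this
        have m4 : G.Adj v d := by
          have : d ∈ G.neighborSet v := by rw [hS]; simp
          exact this
        obtain ⟨x, A, k1, k2, -⟩ := ws_five' (G := G) (S := Set.univ) (a := a) (b := b) (c := c)
          (d := d) (e := v) trivial trivial trivial trivial trivial hab (hcl a c m1 m3 hac)
          (hcl a d m1 m4 had) m1.symm (hcl b c m2 m3 hbc) (hcl b d m2 m4 hbd) m2.symm
          (hcl c d m3 m4 hcd) m3.symm m4.symm (Or.inl (hcl a b m1 m2 hab))
        exact hK ⟨x, A, k1, k2⟩

end Pool.Agent.U834.BLF
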