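import Pool.Agent.R814.BL.Main
import Pool.Agent.Y655.RF.Deg

/-!
The graph whose vertices are pairwise disjoint connected sets of vertices of a graph, and the number
of its edges.
-/

set_option autoImplicit false

namespace Pool.Agent.U834.BLF

open Pool.Agent.H207R2.BL Pool.Agent.Y865.RF Pool.Agent.Y655.RF Finset

/-- the graph on the sets `B i` -/
def Q {V : Type} (G : SimpleGraph V) {m : ℕ} (B : Fin m → Set V) : SimpleGraph (Fin m) where
  Adj i j := i ≠ j ∧ ∃ x ∈ B i, ∃ y ∈ B j, G.Adj x y
  symm := ⟨fun i j h => ⟨h.1.symm, by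
    obtain ⟨-, x, hx, y, hy, hxy⟩ := h
    exact ⟨y, hy, x, hx, hxy.symm⟩⟩⟩
  loopless := ⟨fun i h => h.1 rfl⟩

theorem cn_sub {V : Type} {G : SimpleGraph V} {A A' : Set V} (h : A ⊆ A') {u v : V}
    (hc : Cn G A u v) : Cn G A' u v := by
  obtain ⟨w, hw⟩ := hc
  exact ⟨w, fun z hz => h (hw z hz)⟩

theorem wk_Q {V : Type} (G : SimpleGraph V) {m : ℕ} (B : Fin m → Set V)
    (hB : ∀ i, ConnSet G (B i)) (hd : ∀ i j, i ≠ j → Disjoint (B i) (B j))
    (h : WK (Fin m) (Q G B)) : WK V G := by
  choose r hr using fun i => (hB i).1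
  obtain ⟨x, A, hA, hdis⟩ := h
  have key : ∀ (S : Set (Fin m)) (i j : Fin m) (w : (Q G B).Walk i j), (∀ z ∈ w.support, z ∈ S) →
      Cn G (⋃ a ∈ S, B a) (r i) (r j) := by
    intro S i j w
    induction w with
    | @nil i =>
      intro hw
      have hi : i ∈ S := hw i (by simp)
      exact cn_refl G (Set.mem_biUnion hi (hr i))
    | @cons i j k hij w ih =>
      intro hw
      have hi : i ∈ S := hw i (by simp)
      have hj : j ∈ S := hw j (by simp)
      have hij' := hij
      obtain ⟨-, p, hp, q, hq, hpq⟩ := hij'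
      have h1 : Cn G (⋃ a ∈ S, B a) (r i) p :=
        cn_sub (Set.subset_biUnion_of_mem hi) ((hB i).2 _ (hr i) _ hp)
      have h2 : Cn G (⋃ a ∈ S, B a) p q :=
        cn_edge hpq (Set.mem_biUnion hi hp) (Set.mem_biUnion hj hq)
      have h3 : Cn G (⋃ a ∈ S, B a) q (r j) :=
        cn_sub (Set.subset_biUnion_of_mem hj) ((hB j).2 _ hq _ (hr j))
      exact cn_trans (cn_trans (cn_trans h1 h2) h3) (ih (fun z hz => hw z (by simp [hz])))
  refine ⟨fun a => r (x a), fun a b => ⋃ i ∈ A a b, B i, ?_, ?_⟩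
  · intro a b hab
    obtain ⟨w, hw⟩ := hA a b hab
    exact key _ _ _ w hw
  · intro a b c d h1 h2 h3 h4 h5 h6
    rw [Set.disjoint_left]
    intro z hz hz'
    simp only [Set.mem_iUnion] at hz hz'
    obtain ⟨i, hi, hzi⟩ := hz
    obtain ⟨j, hj, hzj⟩ := hz'
    by_cases hij : i = j
    · subst hij
      exact Set.disjoint_left.1 (hdis a b c d h1 h2 h3 h4 h5 h6) hi hj
    · exact Set.disjoint_left.1 (hd i j hij) hzi hzj

theorem ee_le {V : Type} (G : SimpleGraph V) (hG : ¬ WK V G) {m : ℕ} (B : Fin m → Set V)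
    (hB : ∀ i, ConnSet G (B i)) (hd : ∀ i j, i ≠ j → Disjoint (B i) (B j)) (hm : 3 ≤ m) :
    (EE (Q G B)).card + 10 < 6 * m := by
  by_contra hcon
  push Not at hcon
  obtain ⟨x, A, k1, k2, -⟩ := mader m (univ : Finset (Fin m)) (Q G B) (by simp)
    (fun x y _ => ⟨mem_univ _, mem_univ _⟩) hm hcon
  exact hG (wk_Q G B hB hd ⟨x, A, k1, k2⟩)

section count

variable {V : Type} [Fintype V] [DecidableEq V]

/-- twice the number of edges -/
theorem card_EE_eq (G : SimpleGraph V) : (EE G).card = 2 * Nat.card G.edgeSet := by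
  classical
  rw [card_EE (G := G) (S := univ) (fun x y _ => ⟨mem_univ _, mem_univ _⟩)]
  have h1 : ∀ x, (NN G x).card = G.degree x := by
    intro x
    rw [← SimpleGraph.card_neighborFinset_eq_degree]
    congr 1
    ext y
    rw [mem_NN, SimpleGraph.mem_neighborFinset]
  simp only [h1]
  rw [SimpleGraph.sum_degrees_eq_twice_card_edges, Nat.card_eq_fintype_card,
    SimpleGraph.edgeFinset_card]

/-- the ordered adjacent pairs in `U` -/
noncomputable def PP (G : SimpleGraph V) (U : Finset V) : Finset (V × V) :=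
  (EE G).filter (fun p => p.1 ∈ U ∧ p.2 ∈ U)

theorem card_PP (G : SimpleGraph V) (U : Finset V) :
    (PP G U).card = 2 * Nat.card (G.induce (U : Set V)).edgeSet := by
  classical
  have : Fintype (U : Set V) := Fintype.ofFinite _
  rw [← card_EE_eq (G.induce (U : Set V))]
  symm
  apply card_bij (fun p _ => (p.1.1, p.2.1))
  · intro p hp
    rw [mem_EE] at hp
    unfold PP
    rw [mem_filter, mem_EE]
    exact ⟨hp, mem_coe.1 p.1.2, mem_coe.1 p.2.2⟩
  · intro p _ q _ hpq
    rw [Prod.ext_iff] at hpq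
    exact Prod.ext (Subtype.ext hpq.1) (Subtype.ext hpq.2)
  · intro p hp
    unfold PP at hp
    rw [mem_filter, mem_EE] at hp
    exact ⟨(⟨p.1, mem_coe.2 hp.2.1⟩, ⟨p.2, mem_coe.2 hp.2.2⟩), by
      rw [mem_EE]
      exact hp.1, rfl⟩

theorem conn_lower (G : SimpleGraph V) (U : Finset V) (hU : ConnSet G (U : Set V)) :
    2 * U.card ≤ (PP G U).card + 2 := by
  classical
  have hc : (G.induce (U : Set V)).Connected := by
    rw [SimpleGraph.connected_iff]
    refine ⟨?_, ?_⟩
    · intro a b
      obtain ⟨w, hw⟩ := hU.2 a.1 a.2 b.1 b.2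
      exact ⟨w.induce _ hw⟩
    · obtain ⟨x, hx⟩ := hU.1
      exact ⟨⟨x, hx⟩⟩
  have h1 := hc.card_vert_le_card_edgeSet_add_one
  have h2 : Nat.card (U : Set V) = U.card := by simp
  rw [h2] at h1
  rw [card_PP]
  omega

/-- at most `|U| - 1` edges in a forest -/
theorem forest_upper (G : SimpleGraph V) (U : Finset V) (hU : U.Nonempty)
    (h : (G.induce (U : Set V)).IsAcyclic) : (PP G U).card + 2 ≤ 2 * U.card := by
  classical
  have hne : Nonempty (U : Set V) := by
    obtain ⟨x, hx⟩ := hU
    exact ⟨⟨x, mem_coe.2 hx⟩⟩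
  have : Fintype (U : Set V) := Fintype.ofFinite _
  obtain ⟨T, hle, -, hT⟩ := (SimpleGraph.connected_top
    (V := (U : Set V))).exists_isTree_le_of_le_of_isAcyclic le_top h
  have h1 := hT.card_edgeFinset
  have h2 : (G.induce (U : Set V)).edgeFinset.card ≤ T.edgeFinset.card :=
    Finset.card_le_card (SimpleGraph.edgeFinset_mono hle)
  have h3 : Fintype.card (U : Set V) = U.card := by simp
  rw [card_PP, Nat.card_eq_fintype_card, ← SimpleGraph.edgeFinset_card]
  omega

/-- a forest and `s` edges -/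
theorem near_forest (G : SimpleGraph V) (X : Set V) (F : Set (Sym2 V)) (s : ℕ)
    (hF : F.ncard ≤ s) (hac : ((G.deleteEdges F).induce Xᶜ).IsAcyclic) (U : Finset V)
    (hU : U.Nonempty) (hUX : ∀ x ∈ U, x ∉ X) : (PP G U).card + 2 ≤ 2 * U.card + 2 * s := by
  classical
  have h1 : ((G.deleteEdges F).induce (U : Set V)).IsAcyclic :=
    hac.embedding (SimpleGraph.induceHomOfLE (G.deleteEdges F)
      (show (U : Set V) ≤ Xᶜ from fun x hx => hUX x (mem_coe.1 hx)))
  have h2 := forest_upper (G.deleteEdges F) U hU h1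
  have hFfin : F.Finite := Set.toFinite F
  let F' : Finset (Sym2 V) := hFfin.toFinset
  have hF' : F'.card ≤ s := by
    rw [← Set.ncard_eq_toFinset_card F hFfin]
    exact hF
  have h3 : PP G U ⊆ PP (G.deleteEdges F) U ∪
      (univ.filter (fun p : V × V => s(p.1, p.2) ∈ F')) := by
    intro p hp
    unfold PP at hp ⊢
    rw [mem_filter, mem_EE] at hp
    rw [mem_union, mem_filter, mem_filter, mem_EE, SimpleGraph.deleteEdges_adj]
    by_cases hm : s(p.1, p.2) ∈ F
    · right
      exact ⟨mem_univ _, hFfin.mem_toFinset.2 hm⟩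
    · left
      exact ⟨⟨hp.1, hm⟩, hp.2⟩
  have h4 : (univ.filter (fun p : V × V => s(p.1, p.2) ∈ F')).card ≤ 2 * F'.card := by
    have h5 : (univ.filter (fun p : V × V => s(p.1, p.2) ∈ F')) ⊆
        F'.biUnion (fun e => univ.filter (fun p : V × V => s(p.1, p.2) = e)) := by
      intro p hp
      rw [mem_filter] at hp
      rw [mem_biUnion]
      exact ⟨_, hp.2, by rw [mem_filter]; exact ⟨mem_univ _, rfl⟩⟩
    refine (card_le_card h5).trans ?_
    refine card_biUnion_le.trans ?_
    have h6 : ∀ e ∈ F', (univ.filter (fun p : V × V => s(p.1, p.2) = e)).card ≤ 2 := by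
      intro e _
      induction e using Sym2.ind with
      | _ a b =>
        have h7 : (univ.filter (fun p : V × V => s(p.1, p.2) = s(a, b))) ⊆ {(a, b), (b, a)} := by
          intro p hp
          rw [mem_filter, Sym2.eq_iff] at hp
          rw [mem_insert, mem_singleton]
          rcases hp.2 with ⟨h8, h9⟩ | ⟨h8, h9⟩
          · left
            exact Prod.ext h8 h9
          · right
            exact Prod.ext h8 h9
        exact (card_le_card h7).trans card_le_two
    calc ∑ e ∈ F', (univ.filter (fun p : V × V => s(p.1, p.2) = e)).card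
        ≤ ∑ _e ∈ F', 2 := sum_le_sum h6
      _ = 2 * F'.card := by rw [sum_const, smul_eq_mul, mul_comm]
  have h8 := (card_le_card h3).trans (card_union_le _ _)
  omega

end count

section main

variable {V : Type} [Fintype V] [DecidableEq V]

/-- the number of edges of the quotient on a family of indices -/
theorem quot_upper (G : SimpleGraph V) {m : ℕ} (B : Fin m → Finset V)
    (hB : ∀ i, ConnSet G (B i : Set V)) (hd : ∀ i j, i ≠ j → Disjoint (B i) (B j))
    (I : Finset (Fin m)) (c : ℕ)
    (hU : (PP G (I.biUnion B)).card + 2 ≤ 2 * (I.biUnion B).card + 2 * c) :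
    (PP (Q G fun i => (B i : Set V)) I).card + 2 ≤ 2 * I.card + 2 * c := by
  classical
  let R : Fin m × Fin m → Finset (V × V) := fun p =>
    (EE G).filter (fun z => z.1 ∈ B p.1 ∧ z.2 ∈ B p.2)
  have hdisj : ∀ p ∈ I ×ˢ I, ∀ p' ∈ I ×ˢ I, p ≠ p' → Disjoint (R p) (R p') := by
    intro p _ p' _ hne
    rw [Finset.disjoint_left]
    intro z hz hz'
    simp only [R, mem_filter] at hz hz'
    apply hne
    have h1 : p.1 = p'.1 := by
      by_contra hcon
      exact Finset.disjoint_left.1 (hd _ _ hcon) hz.2.1 hz'.2.1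
    have h2 : p.2 = p'.2 := by
      by_contra hcon
      exact Finset.disjoint_left.1 (hd _ _ hcon) hz.2.2 hz'.2.2
    exact Prod.ext h1 h2
  have h1 : ∑ p ∈ I ×ˢ I, (R p).card ≤ (PP G (I.biUnion B)).card := by
    rw [← card_biUnion hdisj]
    apply card_le_card
    intro z hz
    rw [mem_biUnion] at hz
    obtain ⟨p, hp, hz⟩ := hz
    rw [mem_product] at hp
    simp only [R, mem_filter] at hz
    unfold PP
    rw [mem_filter]
    exact ⟨hz.1, mem_biUnion.2 ⟨_, hp.1, hz.2.1⟩, mem_biUnion.2 ⟨_, hp.2, hz.2.2⟩⟩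
  have h2 : ∑ i ∈ I, (R (i, i)).card + (PP (Q G fun i => (B i : Set V)) I).card ≤
      ∑ p ∈ I ×ˢ I, (R p).card := by
    have h3 : ∑ i ∈ I, (R (i, i)).card = ∑ p ∈ I.image (fun i => (i, i)), (R p).card := by
      rw [sum_image]
      intro i _ j _ hij
      exact (Prod.ext_iff.1 hij).1
    have h4 : (PP (Q G fun i => (B i : Set V)) I).card ≤
        ∑ p ∈ PP (Q G fun i => (B i : Set V)) I, (R p).card := by
      rw [card_eq_sum_ones]
      apply sum_le_sum
      intro p hp
      unfold PP at hp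
      rw [mem_filter, mem_EE] at hp
      obtain ⟨⟨-, x, hx, y, hy, hxy⟩, -⟩ := hp
      rw [Nat.one_le_iff_ne_zero, Ne, card_eq_zero]
      intro h0
      have : (x, y) ∈ R p := by
        simp only [R, mem_filter, mem_EE]
        exact ⟨hxy, mem_coe.1 hx, mem_coe.1 hy⟩
      rw [h0] at this
      exact absurd this (notMem_empty _)
    have h5 : Disjoint (I.image (fun i => (i, i))) (PP (Q G fun i => (B i : Set V)) I) := by
      rw [Finset.disjoint_left]
      intro p hp hp'
      rw [mem_image] at hp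
      obtain ⟨i, -, rfl⟩ := hp
      unfold PP at hp'
      rw [mem_filter, mem_EE] at hp'
      exact hp'.1.1 rfl
    rw [h3]
    refine (Nat.add_le_add_left h4 _).trans ?_
    rw [← sum_union h5]
    apply sum_le_sum_of_subset
    intro p hp
    rw [mem_union, mem_image] at hp
    rw [mem_product]
    rcases hp with ⟨i, hi, rfl⟩ | hp
    · exact ⟨hi, hi⟩
    · unfold PP at hp
      rw [mem_filter] at hp
      exact hp.2
  have h6 : ∀ i ∈ I, 2 * (B i).card ≤ (R (i, i)).card + 2 := fun i _ => conn_lower G (B i) (hB i)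
  have h7 := sum_le_sum h6
  rw [← mul_sum, sum_add_distrib, sum_const, smul_eq_mul] at h7
  have h8 : (I.biUnion B).card = ∑ i ∈ I, (B i).card :=
    card_biUnion (fun i _ j _ hij => hd i j hij)
  omega

/-- the number of the branch sets of a minor of minimum degree five -/
theorem count_main (G : SimpleGraph V) (hG : ¬ WK V G) (k s : ℕ) (X : Set V)
    (F : Set (Sym2 V)) (hX : X.ncard ≤ k) (hF : F.ncard ≤ s)
    (hac : ((G.deleteEdges F).induce Xᶜ).IsAcyclic) {m : ℕ} (hm : 0 < m) (B : Fin m → Finset V)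
    (hB : ∀ i, ConnSet G (B i : Set V)) (hd : ∀ i j, i ≠ j → Disjoint (B i) (B j))
    (h5 : ∀ i, 5 ≤ (NN (Q G fun i => (B i : Set V)) i).card) :
    12 ≤ m ∧ m + 7 ≤ 4 * k + s ∧ (X = ∅ → 3 * m + 2 ≤ 2 * s) := by
  classical
  set H := Q G fun i => (B i : Set V) with hH
  have hIn : In (univ : Finset (Fin m)) H := fun x y _ => ⟨mem_univ _, mem_univ _⟩
  have h6 : 6 ≤ m := by
    have h1 := h5 ⟨0, hm⟩
    have h2 : NN H ⟨0, hm⟩ ⊆ univ.erase ⟨0, hm⟩ := by
      intro y hy
      rw [mem_NN] at hy
      rw [mem_erase]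
      exact ⟨hy.ne', mem_univ _⟩
    have h3 := card_le_card h2
    rw [card_erase_of_mem (mem_univ _), card_univ, Fintype.card_fin] at h3
    omega
  have hup := ee_le G hG (fun i => (B i : Set V)) hB
    (fun i j hij => by exact_mod_cast hd i j hij) (by omega)
  rw [← hH] at hup
  have hpar := card_EE_eq H
  have hdeg := card_EE hIn
  have hlow : 5 * m ≤ (EE H).card := by
    rw [hdeg]
    calc 5 * m = ∑ _i ∈ (univ : Finset (Fin m)), 5 := by simp [mul_comm]
      _ ≤ _ := sum_le_sum fun i _ => h5 i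
  have h12 : 12 ≤ m := by omega
  refine ⟨h12, ?_⟩
  let I : Finset (Fin m) := univ.filter (fun i => ∀ x ∈ B i, x ∉ X)
  have hJ : (univ.filter (fun i => ¬ ∀ x ∈ B i, x ∉ X) : Finset (Fin m)).card ≤ k := by
    refine le_trans ?_ hX
    have h1 : ∀ i ∈ (univ.filter (fun i => ¬ ∀ x ∈ B i, x ∉ X) : Finset (Fin m)),
        ∃ x, x ∈ B i ∧ x ∈ X := by
      intro i hi
      rw [mem_filter] at hi
      push Not at hi
      exact hi.2
    have hne : Nonempty V := by
      obtain ⟨x0, -⟩ := (hB ⟨0, hm⟩).1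
      exact ⟨x0⟩
    choose! f hf using h1
    have hXf : X.Finite := Set.toFinite X
    rw [Set.ncard_eq_toFinset_card X hXf]
    apply card_le_card_of_injOn f
    · intro i hi
      exact mem_coe.2 (hXf.mem_toFinset.2 (hf i (mem_coe.1 hi)).2)
    · intro i hi j hj hij
      by_contra hcon
      exact Finset.disjoint_left.1 (hd i j hcon) (hf i (mem_coe.1 hi)).1
        (hij ▸ (hf j (mem_coe.1 hj)).1)
  have hsplit : I.card + (univ.filter (fun i => ¬ ∀ x ∈ B i, x ∉ X) : Finset (Fin m)).card = m := by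
    have := card_filter_add_card_filter_not (s := (univ : Finset (Fin m)))
      (fun i => ∀ x ∈ B i, x ∉ X)
    rw [card_univ, Fintype.card_fin] at this
    exact this
  have hXI : X = ∅ → I = univ := by
    intro hX0
    apply filter_true_of_mem
    intro i _ x _
    rw [hX0]
    exact Set.notMem_empty x
  rcases I.eq_empty_or_nonempty with h0 | hI
  · refine ⟨?_, fun hX0 => ?_⟩
    · rw [h0, card_empty] at hsplit
      omega
    · have h1 := congrArg Finset.card (hXI hX0)
      rw [h0, card_empty, card_univ, Fintype.card_fin] at h1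
      omega
  have hUne : (I.biUnion B).Nonempty := by
    obtain ⟨i, hi⟩ := hI
    obtain ⟨x, hx⟩ := (hB i).1
    exact ⟨x, mem_biUnion.2 ⟨i, hi, mem_coe.1 hx⟩⟩
  have hquot := quot_upper G B hB hd I s (near_forest G X F s hF hac _ hUne (by
    intro x hx
    rw [mem_biUnion] at hx
    obtain ⟨i, hi, hx⟩ := hx
    exact (mem_filter.1 hi).2 x hx))
  rw [← hH] at hquot
  -- degrees
  let b : Finset (Fin m × Fin m) := (EE H).filter (fun p => p.1 ∈ I ∧ p.2 ∉ I)
  let b' : Finset (Fin m × Fin m) := (EE H).filter (fun p => p.1 ∉ I ∧ p.2 ∈ I)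
  have hbb : b.card = b'.card := by
    apply card_bij (fun p _ => (p.2, p.1))
    · intro p hp
      simp only [b, b', mem_filter, mem_EE] at hp ⊢
      exact ⟨hp.1.symm, hp.2.2, hp.2.1⟩
    · intro p _ q _ hpq
      rw [Prod.ext_iff] at hpq
      exact Prod.ext hpq.2 hpq.1
    · intro p hp
      simp only [b, b', mem_filter, mem_EE] at hp ⊢
      exact ⟨(p.2, p.1), ⟨hp.1.symm, hp.2.2, hp.2.1⟩, rfl⟩
  have htot : (PP H I).card + b.card + b'.card ≤ (EE H).card := by
    have d1 : Disjoint (PP H I) b := by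
      rw [Finset.disjoint_left]
      intro p hp hp'
      unfold PP at hp
      simp only [b, mem_filter] at hp hp'
      exact hp'.2.2 hp.2.2
    have d2 : Disjoint (PP H I ∪ b) b' := by
      rw [Finset.disjoint_left]
      intro p hp hp'
      simp only [b', mem_filter] at hp'
      rw [mem_union] at hp
      rcases hp with hp | hp
      · unfold PP at hp
        rw [mem_filter] at hp
        exact hp'.2.1 hp.2.1
      · simp only [b, mem_filter] at hp
        exact hp'.2.1 hp.2.1
    rw [← card_union_of_disjoint d1, ← card_union_of_disjoint d2]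
    apply card_le_card
    intro p hp
    rw [mem_union, mem_union] at hp
    rcases hp with (hp | hp) | hp
    · unfold PP at hp
      exact (mem_filter.1 hp).1
    · exact (mem_filter.1 hp).1
    · exact (mem_filter.1 hp).1
  have hI5 : 5 * I.card ≤ (PP H I).card + b.card := by
    have h1 : ∑ i ∈ I, (NN H i).card = ((EE H).filter (fun p => p.1 ∈ I)).card := by
      have h0 := card_eq_sum_card_fiberwise (f := (Prod.fst : Fin m × Fin m → Fin m))
        (s := (EE H).filter (fun p => p.1 ∈ I)) (t := I)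
        (fun p hp => (mem_filter.1 (mem_coe.1 hp)).2)
      rw [h0]
      apply sum_congr rfl
      intro x hx
      symm
      apply card_bij (fun p _ => p.2)
      · intro p hp
        rw [mem_filter, mem_filter, mem_EE] at hp
        rw [mem_NN, ← hp.2]
        exact hp.1.1
      · intro p hp q hq hpq
        rw [mem_filter] at hp hq
        exact Prod.ext (hp.2.trans hq.2.symm) hpq
      · intro y hy
        refine ⟨(x, y), ?_, rfl⟩
        rw [mem_filter, mem_filter, mem_EE]
        exact ⟨⟨mem_NN.1 hy, hx⟩, rfl⟩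
    have h2 : ((EE H).filter (fun p => p.1 ∈ I)) ⊆ PP H I ∪ b := by
      intro p hp
      rw [mem_filter] at hp
      rw [mem_union]
      by_cases hm : p.2 ∈ I
      · left
        unfold PP
        rw [mem_filter]
        exact ⟨hp.1, hp.2, hm⟩
      · right
        simp only [b, mem_filter]
        exact ⟨hp.1, hp.2, hm⟩
    calc 5 * I.card = ∑ _i ∈ I, 5 := by rw [sum_const, smul_eq_mul, mul_comm]
      _ ≤ ∑ i ∈ I, (NN H i).card := sum_le_sum fun i _ => h5 i
      _ = _ := h1
      _ ≤ _ := (card_le_card h2).trans (card_union_le _ _)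
  refine ⟨by omega, fun hX0 => ?_⟩
  have h1 := hXI hX0
  have h2 : (PP H I).card = (EE H).card := by
    congr 1
    unfold PP
    rw [h1]
    simp
  have h3 : I.card = m := by rw [h1, card_univ, Fintype.card_fin]
  omega

/-- minors of minimum degree five -/
theorem minor_bound {V : Type} [Finite V] (G : SimpleGraph V) (hG : ¬ WK V G) (k s : ℕ)
    (X : Set V) (F : Set (Sym2 V)) (hX : X.ncard ≤ k) (hF : F.ncard ≤ s)
    (hac : ((G.deleteEdges F).induce Xᶜ).IsAcyclic) (M : ℕ)
    (hM : 4 * k + s ≤ 18 ∨ 4 * k + s ≤ M + 7 ∨ X = ∅ ∧ 2 * s ≤ 3 * M + 4) :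
    Pool.Agent.R814.BL.MinorDegAbove M 4 G := by
  classical
  have : Fintype V := Fintype.ofFinite V
  intro m B hm hB hd
  by_contra hcon
  push Not at hcon
  have hfin : ∀ i, (B i).Finite := fun i => Set.toFinite _
  have hco : ∀ i, (((hfin i).toFinset : Finset V) : Set V) = B i := fun i => (hfin i).coe_toFinset
  have hQ : (Q G fun i => (((hfin i).toFinset : Finset V) : Set V)) = Q G B := by
    congr 1
    funext i
    exact hco i
  have h5 : ∀ i, 5 ≤ (NN (Q G fun i => (((hfin i).toFinset : Finset V) : Set V)) i).card := by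
    intro i
    rw [hQ]
    have h1 := hcon i
    have h2 : {j | j ≠ i ∧ ∃ x ∈ B i, ∃ y ∈ B j, G.Adj x y} =
        ((NN (Q G B) i : Finset (Fin m)) : Set (Fin m)) := by
      ext j
      rw [mem_coe, mem_NN]
      constructor
      · rintro ⟨h3, h4⟩
        exact ⟨h3.symm, h4⟩
      · rintro ⟨h3, h4⟩
        exact ⟨h3.symm, h4⟩
    rw [h2, Set.ncard_coe_finset] at h1
    omega
  have hfinal := count_main G hG k s X F hX hF hac (by omega) (fun i => (hfin i).toFinset)
    (fun i => by rw [hco]; exact hB i)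
    (fun i j hij => by
      rw [← Finset.disjoint_coe, hco, hco]
      exact hd i j hij) h5
  obtain ⟨k1, k2, k3⟩ := hfinal
  rcases hM with h | h | ⟨h, h'⟩
  · omega
  · omega
  · have := k3 h
    omega

end main

end Pool.Agent.U834.BLF
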